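import Pool.Agent.H76.SD.Targets2
import Pool.Agent.H19.SD.PRM

/-! # PB: choice of the parameters, semidefinite constraints of any order -/

set_option autoImplicit false

namespace Pool.Agent.H92.SD

open Finset
open Pool.Agent.H76.SD
open Pool.Agent.H76.CX
open Pool.Agent.H19.SD (le_two_pow kk_pos prm_pow err_second)
open Pool.Agent.H1.LP (kk)

theorem six_mul_le (s : ℕ) (hs : 5 ≤ s) : 6 * s ≤ 2 ^ s := by
  induction s, hs using Nat.le_induction with
  | base => norm_num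
  | succ k hk ih =>
    rw [pow_succ]
    omega

/-- the first part of the error is small -/
theorem pb_first (E g B s : ℕ) (hs : 5 ≤ s) (h1 : (4 * E + 1) * B + 3 * s + 4 ≤ g)
    (h2 : (E + 1) ^ B ≤ 2 ^ s) (h3 : 16 * E * B ≤ s) :
    16 * (E : ℝ) * B * (2 * 2 ^ ((4 * E + 1) * B) / 2 ^ (g * (B / E + 1)) +
      2 * (((E : ℝ) + 1) ^ B * (1 / 2) ^ (3 * s))) ≤ (1 / 2) ^ (s + 1) := by
  have a1 : (16 : ℝ) * E * B ≤ s := by exact_mod_cast h3
  have a2 : (2 : ℝ) * 2 ^ ((4 * E + 1) * B) / 2 ^ (g * (B / E + 1)) ≤ (1 / 2) ^ (2 * s) := by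
    rw [div_le_iff₀ (by positivity)]
    have hg : g ≤ g * (B / E + 1) := Nat.le_mul_of_pos_right g (Nat.succ_pos _)
    calc (2 : ℝ) * 2 ^ ((4 * E + 1) * B) = (1 / 2) ^ (2 * s) * 2 ^ (2 * s + 1 + (4 * E + 1) * B) := by
          rw [pow_add, pow_add, one_div, inv_pow]
          field_simp
      _ ≤ (1 / 2) ^ (2 * s) * 2 ^ (g * (B / E + 1)) := by
          apply mul_le_mul_of_nonneg_left _ (by positivity)
          exact pow_le_pow_right₀ (by norm_num) (by omega)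
  have a3 : ((E : ℝ) + 1) ^ B * (1 / 2) ^ (3 * s) ≤ (1 / 2) ^ (2 * s) := by
    have h4 : ((E : ℝ) + 1) ^ B ≤ 2 ^ s := by exact_mod_cast h2
    calc ((E : ℝ) + 1) ^ B * (1 / 2) ^ (3 * s) ≤ 2 ^ s * (1 / 2) ^ (3 * s) :=
          mul_le_mul_of_nonneg_right h4 (by positivity)
      _ = (1 / 2) ^ (2 * s) := by
          have : 3 * s = s + 2 * s := by ring
          rw [this, pow_add, ← mul_assoc, ← mul_pow]
          norm_num
  have a4 : (6 * (s : ℝ)) ≤ 2 ^ s := by exact_mod_cast six_mul_le s hs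
  calc 16 * (E : ℝ) * B * (2 * 2 ^ ((4 * E + 1) * B) / 2 ^ (g * (B / E + 1)) +
        2 * (((E : ℝ) + 1) ^ B * (1 / 2) ^ (3 * s)))
      ≤ s * ((1 / 2) ^ (2 * s) + 2 * (1 / 2) ^ (2 * s)) := by
        apply mul_le_mul a1 (add_le_add a2 (mul_le_mul_of_nonneg_left a3 (by norm_num)))
          (by positivity) (by positivity)
    _ = (6 * s) * (1 / 2) ^ s * (1 / 2) ^ (s + 1) := by
        have : 2 * s = s + s := by ring
        rw [this, pow_add, pow_succ]
        ring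
    _ ≤ 2 ^ s * (1 / 2) ^ s * (1 / 2) ^ (s + 1) := by gcongr
    _ = (1 / 2) ^ (s + 1) := by
        rw [← mul_pow]
        norm_num

/-- the probability of a bad table -/
theorem pb_prob (n s F M0 : ℕ) (hs : 64 ≤ s) (hn : n ≤ 2 ^ s) (hF : F ≤ n)
    (hM0 : M0 = 2 * (2 ^ s + 1) * 2 ^ (8 * s + F)) :
    ((2 : ℝ) ^ 2 ^ s) * (2 ^ 2 ^ s + 1) * ((M0 : ℝ) + 1) ^ (2 ^ s + 1) *
        (1 / 2) ^ 2 ^ (2 * (8 * s)) ≤ 1 / 4 := by
  have hs1 : s + 1 ≤ 2 ^ s := le_two_pow s
  have h1s : 1 ≤ 2 ^ s := Nat.one_le_two_pow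
  have h1 : M0 + 1 ≤ 2 ^ (9 * s + n + 3) := by
    have e1 : 2 ^ s + 1 ≤ 2 ^ (s + 1) := by
      rw [pow_succ]
      omega
    have e2 : 2 ^ (8 * s + F) ≤ 2 ^ (8 * s + n) := Nat.pow_le_pow_right (by norm_num) (by omega)
    have e3 : M0 ≤ 2 * 2 ^ (s + 1) * 2 ^ (8 * s + n) := by
      rw [hM0]
      exact Nat.mul_le_mul (Nat.mul_le_mul_left _ e1) e2
    have e4 : 2 * 2 ^ (s + 1) * 2 ^ (8 * s + n) = 2 ^ (9 * s + n + 2) := by
      rw [← pow_succ', ← pow_add]
      congr 1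
      ring
    have e5 : 2 ^ (9 * s + n + 3) = 2 * 2 ^ (9 * s + n + 2) := by
      rw [pow_succ' 2 (9 * s + n + 2)]
    have e6 : 1 ≤ 2 ^ (9 * s + n + 2) := Nat.one_le_two_pow
    omega
  have h1R : (M0 : ℝ) + 1 ≤ 2 ^ (9 * s + n + 3) := by exact_mod_cast h1
  have h2 : (2 : ℝ) ^ 2 ^ s + 1 ≤ 2 ^ (2 ^ s + 1) := by
    have : (1 : ℝ) ≤ 2 ^ 2 ^ s := one_le_pow₀ (by norm_num)
    rw [pow_succ]
    linarith
  have h3 : 2 ^ s + (2 ^ s + 1) + (9 * s + n + 3) * (2 ^ s + 1) + 2 ≤ 2 ^ (2 * (8 * s)) := by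
    have e1 : 2 ^ (2 * (8 * s)) = 2 ^ (2 * s) * 2 ^ (14 * s) := by
      rw [← pow_add]
      congr 1
      ring
    have e2 : 2 ^ (2 * s) = 2 ^ s * 2 ^ s := by
      rw [← pow_add]
      congr 1
      ring
    have e3 : 2 ^ 6 ≤ 2 ^ (14 * s) := Nat.pow_le_pow_right (by norm_num) (by omega)
    rw [e1, e2]
    obtain ⟨a, ha⟩ : ∃ a, a = 2 ^ s := ⟨_, rfl⟩
    rw [← ha] at hs1 hn h1s ⊢
    have e4 : (9 * s + n + 3) * (a + 1) ≤ (10 * a) * (a + a) := by
      apply Nat.mul_le_mul <;> omega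
    have e5 : a ≤ a * a := Nat.le_mul_of_pos_left a (by omega)
    calc a + (a + 1) + (9 * s + n + 3) * (a + 1) + 2 ≤ a * a * 2 ^ 6 := by nlinarith
      _ ≤ a * a * 2 ^ (14 * s) := Nat.mul_le_mul_left _ e3
  have h4 : ((M0 : ℝ) + 1) ^ (2 ^ s + 1) ≤ 2 ^ ((9 * s + n + 3) * (2 ^ s + 1)) := by
    rw [pow_mul]
    exact pow_le_pow_left₀ (by positivity) h1R _
  calc ((2 : ℝ) ^ 2 ^ s) * (2 ^ 2 ^ s + 1) * ((M0 : ℝ) + 1) ^ (2 ^ s + 1) *
        (1 / 2) ^ 2 ^ (2 * (8 * s))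
      ≤ 2 ^ 2 ^ s * 2 ^ (2 ^ s + 1) * 2 ^ ((9 * s + n + 3) * (2 ^ s + 1)) *
        (1 / 2) ^ 2 ^ (2 * (8 * s)) := by gcongr
    _ = 2 ^ (2 ^ s + (2 ^ s + 1) + (9 * s + n + 3) * (2 ^ s + 1)) *
        (1 / 2) ^ 2 ^ (2 * (8 * s)) := by rw [← pow_add, ← pow_add]
    _ ≤ 2 ^ (2 ^ s + (2 ^ s + 1) + (9 * s + n + 3) * (2 ^ s + 1)) *
        (1 / 2) ^ (2 ^ s + (2 ^ s + 1) + (9 * s + n + 3) * (2 ^ s + 1) + 2) := by
        apply mul_le_mul_of_nonneg_left _ (by positivity)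
        exact pow_le_pow_of_le_one (by norm_num) (by norm_num) h3
    _ = 1 / 4 := by
        rw [pow_add (1 / 2 : ℝ), ← mul_assoc, ← mul_pow]
        norm_num

theorem pb : T_PB := by
  intro ε hε
  set E : ℕ := max 16 (Nat.ceil (24 / ε)) with hE
  have hE16 : 16 ≤ E := le_max_left _ _
  have hER : 24 / ε ≤ (E : ℝ) := (Nat.le_ceil _).trans (by exact_mod_cast le_max_right _ _)
  have hE0 : (0 : ℝ) < E := by exact_mod_cast (show 0 < E by omega)
  have hE24 : 24 ≤ ε * E := by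
    rw [div_le_iff₀ hε] at hER
    linarith
  set K : ℕ := kk E with hK
  have hK1 : 1 ≤ K := kk_pos E hE16
  set C : ℕ := 32 * E + 102 + 64 * E * K with hC
  set c : ℕ := max (max (96 * E * K + 64) (1 + 256 * E * K)) (Nat.ceil (2 * C / ε)) with hc
  have hc1 : 96 * E * K + 64 ≤ c := (le_max_left _ _).trans (le_max_left _ _)
  have hc2 : 1 + 256 * E * K ≤ c := (le_max_right _ _).trans (le_max_left _ _)
  have hc3 : 2 * C / ε ≤ (c : ℝ) := (Nat.le_ceil _).trans (Nat.cast_le.2 (le_max_right _ _))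
  refine ⟨E, c, 1, hE16, ?_, fun n s hn hns hcs hss => ?_⟩
  · rw [div_le_iff₀ hE0]
    linarith
  have hs0 : 0 < s := by
    rcases Nat.eq_zero_or_pos s with h | h
    · subst h
      rw [zero_pow (by norm_num)] at hss
      omega
    · exact h
  have hcs' : c ≤ s := by
    have h1 : c * s ≤ s * s := by nlinarith
    exact Nat.le_of_mul_le_mul_right h1 hs0
  have hs1 : 96 * E * K + 64 ≤ s := hc1.trans hcs'
  have hs64 : 64 ≤ s := by omega
  have h32 : 0 < 32 * E * s := Nat.mul_pos (by omega) hs0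
  set B := n / (32 * E * s) with hB
  have hBn : 32 * E * s * B ≤ n := Nat.mul_div_le n (32 * E * s)
  have hBn2 : n < 32 * E * s * (B + 1) := Nat.lt_mul_div_succ n h32
  have hB0 : 3 * K ≤ B := by
    rw [hB, Nat.le_div_iff_mul_le h32]
    calc 3 * K * (32 * E * s) = 96 * E * K * s := by ring
      _ ≤ c * s := Nat.mul_le_mul_right _ (by omega)
      _ ≤ n := hcs
  have hB1 : 32 * E * B ≤ s := by
    have h1 : 32 * E * B * s ≤ s * s := by
      calc 32 * E * B * s = 32 * E * s * B := by ring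
        _ ≤ n := hBn
        _ ≤ s * s := by rw [← pow_two]; exact hss
    exact Nat.le_of_mul_le_mul_right h1 hs0
  have hn2 : n < (s + 1) * (s + 1) := by nlinarith
  obtain ⟨c1, c2, c3, c4, c5, c6, c7, c8, c9, c10⟩ := prm_pow E K s n (8 * s) B hE16 hK1 hs1 hn2
    hB0 hB1 le_rfl (by omega)
  refine ⟨8 * s, 3 * s, B, 2 * (2 ^ s + 1) * 2 ^ (8 * s + 4 * (8 * s) * E * B), by omega, hB0, ?_,
    c1, c2, ?_, c4, by omega, ?_, le_rfl, ?_, ?_, ?_, ?_⟩
  · calc B * (4 * E * (8 * s)) = 32 * E * s * B := by ring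
      _ ≤ n := hBn
  · exact c3.trans (Nat.pow_le_pow_right (by norm_num) (by omega))
  · exact c5.trans (Nat.pow_le_pow_right (by norm_num) c6)
  · refine pb_prob n s (4 * (8 * s) * E * B) _ hs64 hns ?_ rfl
    calc 4 * (8 * s) * E * B = 32 * E * s * B := by ring
      _ ≤ n := hBn
  · exact c8.trans (Nat.pow_le_pow_right (by norm_num) (Nat.mul_le_mul_right _ hc2))
  · exact c9.trans (Nat.mul_le_mul_right _ hc2)
  · intro W hW hor
    have hnR : (0 : ℝ) ≤ n := Nat.cast_nonneg n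
    rcases hor with h | h
    · -- the main case
      have e1 := pb_first E (8 * s) B s (by omega) c2 c3 c10
      have h1B : (4 * E + 1) * B ≤ s := by
        have : 32 * E * B = 4 * E * B + 28 * (E * B) := by ring
        have h5 : (4 * E + 1) * B = 4 * E * B + B := by ring
        have h6 : B ≤ E * B := Nat.le_mul_of_pos_left B (by omega)
        omega
      have e2 := err_second E (8 * s) B s K W hW h1B c10 c5
      have e3 : (1 / 2 : ℝ) ^ s ≤ (1 / 2) ^ (s + 1) +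
          2 ^ (4 * s + 8 * E * (8 * s) * K + 4 * (8 * s) * (11 * B + 3)) /
            2 ^ (4 * (8 * s) * (E * B)) * W := by
        refine h.trans ?_
        unfold err2
        exact add_le_add e1 e2
      have e4 : (1 / 2 : ℝ) ^ (s + 1) ≤
          2 ^ (4 * s + 8 * E * (8 * s) * K + 4 * (8 * s) * (11 * B + 3)) /
            2 ^ (4 * (8 * s) * (E * B)) * W := by
        have : (1 / 2 : ℝ) ^ s = 2 * (1 / 2) ^ (s + 1) := by rw [pow_succ]; ring
        linarith
      set Y : ℕ := 4 * s + 8 * E * (8 * s) * K + 4 * (8 * s) * (11 * B + 3) with hY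
      set X : ℕ := 4 * (8 * s) * (E * B) with hX
      have e5 : (2 : ℝ) ^ X ≤ 2 ^ (Y + (s + 1)) * W := by
        have h7 : (2 : ℝ) ^ X * 2 ^ (s + 1) * (1 / 2) ^ (s + 1) ≤
            (2 : ℝ) ^ X * 2 ^ (s + 1) * (2 ^ Y / 2 ^ X * W) :=
          mul_le_mul_of_nonneg_left e4 (by positivity)
        have h8 : (2 : ℝ) ^ X * 2 ^ (s + 1) * (1 / 2) ^ (s + 1) = 2 ^ X := by
          rw [mul_assoc, ← mul_pow]
          norm_num
        have h9 : (2 : ℝ) ^ X * 2 ^ (s + 1) * (2 ^ Y / 2 ^ X * W) = 2 ^ (Y + (s + 1)) * W := by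
          rw [pow_add 2 Y (s + 1)]
          field_simp
        rw [h8, h9] at h7
        exact h7
      have e6 : ((1 - ε) * n : ℝ) ≤ (X : ℝ) - ((Y + (s + 1) : ℕ) : ℝ) := by
        have f1 : (n : ℝ) < 32 * E * s * (B + 1) := by exact_mod_cast hBn2
        have f3 : (32 : ℝ) * E * s * B ≤ n := by exact_mod_cast hBn
        have f5 : (c : ℝ) * s ≤ n := by exact_mod_cast hcs
        have f6 : (2 : ℝ) * C ≤ ε * c := by
          rw [div_le_iff₀ hε] at hc3
          linarith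
        have f7 : (0 : ℝ) ≤ B := Nat.cast_nonneg B
        have f8 : (1 : ℝ) ≤ s := by exact_mod_cast hs0
        -- 352 s B ≤ (11 / 24) ε n
        have f11 : 352 * (s : ℝ) * B ≤ 11 / 24 * ε * n := by
          have h1 : 352 * (s : ℝ) * B * 24 ≤ 352 * (s : ℝ) * B * (ε * E) :=
            mul_le_mul_of_nonneg_left hE24 (by positivity)
          have h2 : 352 * (s : ℝ) * B * (ε * E) = 11 * ε * (32 * E * s * B) := by ring
          have h3 : 11 * ε * (32 * E * s * B) ≤ 11 * ε * n :=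
            mul_le_mul_of_nonneg_left f3 (by positivity)
          linarith
        -- C s ≤ (ε / 2) n
        have f12 : (C : ℝ) * s ≤ ε / 2 * n := by
          have h1 : 2 * (C : ℝ) * s ≤ ε * c * s := mul_le_mul_of_nonneg_right f6 (by linarith)
          have h2 : ε * (c * s) ≤ ε * n := mul_le_mul_of_nonneg_left f5 hε.le
          linarith
        have f13 : (C : ℝ) = 32 * E + 102 + 64 * E * K := by rw [hC]; push_cast; ring
        rw [hY, hX]
        push_cast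
        have f18 : (C : ℝ) * s = 32 * E * s + 102 * s + 64 * E * K * s := by rw [f13]; ring
        have f21 : 0 ≤ ε * (n : ℝ) := by positivity
        have f22 : (32 : ℝ) * E * s * (B + 1) = 32 * E * s * B + 32 * E * s := by ring
        have f23 : (4 : ℝ) * (8 * s) * (E * B) = 32 * E * s * B := by ring
        have f24 : (4 : ℝ) * s + 8 * E * (8 * s) * K + 4 * (8 * s) * (11 * B + 3) + (s + 1) =
          352 * s * B + 64 * E * K * s + 101 * s + 1 := by ring
        rw [f23, f24]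
        rw [f22] at f1
        rw [f18] at f12
        linarith
      calc (2 : ℝ) ^ ((1 - ε) * n) ≤
            (2 : ℝ) ^ ((X : ℝ) - ((Y + (s + 1) : ℕ) : ℝ)) :=
            Real.rpow_le_rpow_of_exponent_le (by norm_num) e6
        _ = 2 ^ X / 2 ^ (Y + (s + 1)) := by
            rw [Real.rpow_sub (by norm_num), Real.rpow_natCast, Real.rpow_natCast]
        _ ≤ W := by
            rw [div_le_iff₀ (by positivity)]
            linarith
    · refine le_trans ?_ h
      calc (2 : ℝ) ^ ((1 - ε) * n) ≤ 2 ^ (n : ℝ) := by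
            apply Real.rpow_le_rpow_of_exponent_le (by norm_num)
            nlinarith
        _ = 2 ^ n := Real.rpow_natCast 2 n

end Pool.Agent.H92.SD
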