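import Pool.Agent.H76.SD.Targets2

/-! # RA: constraints of bounded dimension -/

set_option autoImplicit false

namespace Pool.Agent.H92.SD

open Finset
open Pool.Agent.H76.CX
open Pool.Agent.H1.LP (kk eta vsi)

/-- the relaxation with constraints of the dimension `κ` -/
noncomputable def toR {n : ℕ} (κ : ℕ) (P : Relax n) (h : ∀ i, P.kap i ≤ κ) : H60.CV.Relax n κ where
  cell := P.cell
  dim := P.dim
  size := P.size
  K i := {z | (fun a => z (Fin.castLE (h i) a)) ∈ P.K i}
  A i a k := if h' : a.1 < P.kap i then P.A i ⟨a.1, h'⟩ k else 0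
  b i a := if h' : a.1 < P.kap i then P.b i ⟨a.1, h'⟩ else 0
  pt := P.pt
  w := P.w
  w0 := P.w0
  convex i := by
    intro z hz z' hz' a b ha hb hab
    exact P.convex i hz hz' ha hb hab
  feas x hx i := by
    have h1 := P.feas x hx i
    show (fun a : Fin (P.kap i) => _) ∈ P.K i
    have e : (fun a : Fin (P.kap i) => ∑ k, (if h' : (Fin.castLE (h i) a).1 < P.kap i then
        P.A i ⟨(Fin.castLE (h i) a).1, h'⟩ k else 0) * P.pt x k +
        (if h' : (Fin.castLE (h i) a).1 < P.kap i then P.b i ⟨(Fin.castLE (h i) a).1, h'⟩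
          else 0)) = fun a => ∑ k, P.A i a k * P.pt x k + P.b i a := by
      funext a
      have ha : (Fin.castLE (h i) a).1 < P.kap i := a.2
      simp only [dif_pos ha]
      rfl
    rw [e]
    exact h1
  bdd := P.bdd
  sound := P.sound

theorem toR_iff {n κ : ℕ} (P : Relax n) (h : ∀ i, P.kap i ≤ κ) (i : Fin P.size)
    (y : Fin P.dim → ℝ) :
    (fun a => ∑ k, (toR κ P h).A i a k * y k + (toR κ P h).b i a) ∈ (toR κ P h).K i ↔
      (fun a => ∑ k, P.A i a k * y k + P.b i a) ∈ P.K i := by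
  have e : (fun a : Fin (P.kap i) => ∑ k, (toR κ P h).A i (Fin.castLE (h i) a) k * y k +
      (toR κ P h).b i (Fin.castLE (h i) a)) = fun a => ∑ k, P.A i a k * y k + P.b i a := by
    funext a
    have ha : (Fin.castLE (h i) a).1 < P.kap i := a.2
    have h1 : (toR κ P h).b i (Fin.castLE (h i) a) = P.b i a := dif_pos ha
    have h2 : ∀ k, (toR κ P h).A i (Fin.castLE (h i) a) k = P.A i a k := fun k => dif_pos ha
    rw [h1]
    congr 1
    exact sum_congr rfl fun k _ => by rw [h2]
  rw [← e]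
  exact Iff.rfl

theorem ra (hcore : H60.CV.S_CORE) (hPA : T_PA) : T_RA := by
  classical
  intro ε hε
  obtain ⟨E, c, n0, hE, hEε, hn⟩ := hPA ε hε
  refine ⟨c, n0, fun n s t hn0 hns hcs hct M P hM hsz hkap => ?_⟩
  obtain ⟨g, s', B, M0, hg, hs', hkB, hBn, h1, h2, hM0, h3, h4, h5, h6⟩ :=
    hn n s t hn0 hns hcs hct
  obtain ⟨m, phi, hm1, hm2, hw, hv, hJ⟩ := hcore E g s' n B (2 ^ s) M (2 ^ 2 ^ s) M0
    (fun j => toR (2 ^ s) (P j) (hkap j)) hE hg hs' hkB hBn h1 h2 hM0
    (by
      refine lt_of_le_of_lt ?_ h3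
      have hM' : (M : ℝ) ≤ 2 ^ 2 ^ s := by exact_mod_cast hM
      push_cast
      gcongr) hsz
  refine ⟨4 * E * g * kk E, m, phi, hm1, hm2.trans h4, h5, hw, fun x => le_trans ?_ (hv x),
    fun J I hd hcov href => ?_⟩
  · gcongr
  · set J' : Finset (Fin M) := J.filter (fun j => (P j).cell.Nonempty) with hJ'
    set I' : (j : Fin M) → Finset (Fin (P j).size) := fun j =>
      (I j).filter (fun i => 1 ≤ (P j).kap i) with hI'
    have hJJ : J' ⊆ J := filter_subset _ _
    have key := hJ J' I' ((1 / 2 : ℝ) ^ t) (by positivity)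
      (fun j hj j' hj' hne => hd j (hJJ hj) j' (hJJ hj') hne)
      (fun x => by
        obtain ⟨j, hj, hx⟩ := hcov x
        exact ⟨j, mem_filter.2 ⟨hj, ⟨x, hx⟩⟩, hx⟩)
      (fun j hj y hy => by
        obtain ⟨hjJ, x, hx⟩ := mem_filter.1 hj
        refine href j hjJ y fun i hi => ?_
        by_cases hk : 1 ≤ (P j).kap i
        · exact (toR_iff (P j) (hkap j) i y).1 (hy i (mem_filter.2 ⟨hi, hk⟩))
        · have hk0 : (P j).kap i = 0 := by omega
          have hemp : IsEmpty (Fin ((P j).kap i)) := by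
            rw [hk0]
            infer_instance
          have hf := (P j).feas x hx i
          have e : (fun a => ∑ k, (P j).A i a k * (P j).pt x k + (P j).b i a) =
              (fun a => ∑ k, (P j).A i a k * y k + (P j).b i a) := Subsingleton.elim _ _
          rw [← e]
          exact hf)
    have hW : (0 : ℝ) ≤ ∑ j ∈ J', (((I' j).card : ℝ) + 1) :=
      sum_nonneg fun j _ => add_nonneg (Nat.cast_nonneg _) zero_le_one
    have h7 := h6 m _ hW hm2 (by
      refine key.trans (le_of_eq ?_)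
      push_cast
      rfl)
    refine h7.trans ?_
    have hterm : ∀ j, (((I' j).card : ℝ) + 1) ≤ 1 + ∑ i ∈ I j, ((P j).kap i : ℝ) := by
      intro j
      have e1 : ((I' j).card : ℝ) ≤ ∑ i ∈ I' j, ((P j).kap i : ℝ) := by
        rw [card_eq_sum_ones]
        push_cast
        refine sum_le_sum fun i hi => ?_
        exact_mod_cast (mem_filter.1 hi).2
      have e2 : ∑ i ∈ I' j, ((P j).kap i : ℝ) ≤ ∑ i ∈ I j, ((P j).kap i : ℝ) :=
        sum_le_sum_of_subset_of_nonneg (filter_subset _ _) fun i _ _ => Nat.cast_nonneg _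
      linarith
    calc ∑ j ∈ J', (((I' j).card : ℝ) + 1) ≤ ∑ j ∈ J', (1 + ∑ i ∈ I j, ((P j).kap i : ℝ)) :=
          sum_le_sum fun j _ => hterm j
      _ ≤ ∑ j ∈ J, (1 + ∑ i ∈ I j, ((P j).kap i : ℝ)) :=
          sum_le_sum_of_subset_of_nonneg hJJ fun j _ _ =>
            add_nonneg zero_le_one (sum_nonneg fun i _ => Nat.cast_nonneg _)

end Pool.Agent.H92.SD
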