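import Pool.Agent.H76.SD.Targets2
import Pool.Agent.H86.SD.BL0

/-! # SCB: scalar functions with a common majorant -/

set_option autoImplicit false

namespace Pool.Agent.H92.SD

open Finset
open Pool.Agent.H76.SD
open Pool.Agent.H76.CX
open Pool.Agent.H86.SD
open Pool.Agent.H1.LP (Loc PD Viol Sys supp ip val Agree FS Typ kk)

theorem scb_heavy (hCOR : T_COR) (hCL1 : T_CL1) (hBLN : T_BLN) {E g B t k p : ℕ}
    [hp' : Fact p.Prime] {Q : Type} [Fintype Q] [DecidableEq Q]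
    (S : Loc p B (B - 8 * (B / E))) (w u : (Fin B → Q) → ℝ)
    (hE : 16 ≤ E) (hB : 1 ≤ B) (hp : p ≤ 2 ^ (4 * E + 1))
    (hg : (4 * E + 1) * B + t + 4 ≤ g) (hEB : (E + 1) ^ B ≤ 2 ^ (4 * g))
    (hw0 : ∀ x, 0 ≤ w x) (hws : ∑ x, w x ≤ k) (hu0 : ∀ x, 0 ≤ u x) (huw : ∀ x, u x ≤ w x)
    (hu1 : ∑ x, u x = 1)
    (a : Fin B → ℕ) (haE : ∀ j, a j ≤ E) (rho0 : ℕ) (hrho : k ≤ (2 ^ (4 * g)) ^ rho0)
    (ha : 2 * (B + rho0) + E * (8 * (B / E)) ≤ ∑ j, a j)
    (W : (Fin B → Q) → Matrix (Fin 1) (Fin 1) ℝ)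
    (hW1 : ∀ x, (∀ j, lev w (2 ^ (4 * g)) E x j = a j) →
      W x = u x • (1 : Matrix (Fin 1) (Fin 1) ℝ))
    (hW2 : ∀ x, ¬ (∀ j, lev w (2 ^ (4 * g)) E x j = a j) → W x = 0) :
    ((E : ℝ) + 1) ^ B * num (fun al : Fin B → Q → ZMod p =>
      ¬ (((1 / 2 : ℝ) ^ t) • (1 : Matrix (Fin 1) (Fin 1) ℝ) + MM S W al).PosSemidef) ≤
      (1 / 2) ^ 2 ^ (2 * g) * Fintype.card (Fin B → Q → ZMod p) := by
  have hD1 : (1 : ℝ) ≤ (2 : ℝ) ^ (4 * g) := one_le_pow₀ (by norm_num)
  have hr : 1 ≤ 2 ^ 2 ^ (2 * g) := Nat.one_le_two_pow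
  have huM : ∀ x, (u x • (1 : Matrix (Fin 1) (Fin 1) ℝ)).PosSemidef := fun x =>
    Matrix.PosSemidef.one.smul (hu0 x)
  have hcor := hCOR p B (B - 8 * (B / E)) 1 (2 ^ (4 * g)) Q S W
    (univ.filter fun L : Finset (Fin B) => ∑ j ∈ L, a j ≤ B + rho0)
    ((2 : ℝ) ^ ((4 * E + 1) * B)) ((k : ℝ) / ((2 : ℝ) ^ (4 * g)) ^ (B + rho0 + 1))
    ((1 / 2 : ℝ) ^ g) ((1 / 2 : ℝ) ^ t) ?_ ?_ ?_ ?_ ?_ ?_ ?_ ?_ ?_ ?_ ?_ ?_
  · exact hBLN E g B t 1 hE hB hg hEB hr _ _ (Nat.cast_nonneg _) hcor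
  · intro L hL L' hL'
    rw [mem_filter] at hL hL'
    have h1 := sum_union_inter (s₁ := L) (s₂ := L') (f := a)
    have h2 := sum_add_sum_compl (L ∪ L') a
    have h3 : ∑ j ∈ (L ∪ L')ᶜ, a j ≤ ((L ∪ L')ᶜ).card * E := by
      have := sum_le_card_nsmul ((L ∪ L')ᶜ) a E fun j _ => haE j
      rwa [smul_eq_mul] at this
    have h4 : E * (8 * (B / E)) ≤ E * ((L ∪ L')ᶜ).card := by
      rw [mul_comm E ((L ∪ L')ᶜ).card]
      omega
    have h5 : 8 * (B / E) ≤ ((L ∪ L')ᶜ).card := Nat.le_of_mul_le_mul_left h4 (by omega)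
    have h6 := card_add_card_compl (L ∪ L')
    rw [Fintype.card_fin] at h6
    omega
  · intro al x
    refine (bl_PD_abs S al x).trans ?_
    rw [pow_mul]
    refine pow_le_pow_left₀ (Nat.cast_nonneg _) ?_ B
    exact_mod_cast hp
  · intro x
    by_cases h : ∀ j, lev w (2 ^ (4 * g)) E x j = a j
    · rw [hW1 x h]
      exact huM x
    · rw [hW2 x h]
      exact Matrix.PosSemidef.zero
  · have e : (1 : Matrix (Fin 1) (Fin 1) ℝ) = ∑ x, u x • (1 : Matrix (Fin 1) (Fin 1) ℝ) := by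
      rw [← sum_smul, hu1, one_smul]
    rw [e, ← sum_sub_distrib]
    refine Matrix.posSemidef_sum _ fun x _ => ?_
    by_cases h : ∀ j, lev w (2 ^ (4 * g)) E x j = a j
    · rw [hW1 x h, sub_self]
      exact Matrix.PosSemidef.zero
    · rw [hW2 x h, sub_zero]
      exact huM x
  · exact Nat.one_le_two_pow
  · positivity
  · intro L hL y
    have hL1 : B + rho0 + 1 ≤ ∑ j ∈ L, a j := by
      by_contra h
      exact hL (mem_filter.mpr ⟨mem_univ _, by omega⟩)
    have h1 := hCL1 B (2 ^ (4 * g)) E Q w a L y Nat.one_le_two_pow hw0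
    have h2 : ∑ x with Agree L x y, (W x).trace ≤
        ∑ x with (Agree L x y ∧ ∀ j, lev w (2 ^ (4 * g)) E x j = a j), w x := by
      rw [sum_filter, sum_filter]
      refine sum_le_sum fun x _ => ?_
      by_cases hA : Agree L x y
      · by_cases hl : ∀ j, lev w (2 ^ (4 * g)) E x j = a j
        · rw [if_pos hA, if_pos ⟨hA, hl⟩, hW1 x hl, Matrix.trace_smul, Matrix.trace_one,
            Fintype.card_fin, Nat.cast_one, smul_eq_mul, mul_one]
          exact huw x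
        · rw [if_pos hA, if_neg fun h => hl h.2, hW2 x hl, Matrix.trace_zero]
      · rw [if_neg hA, if_neg fun h => hA h.1]
    refine h2.trans ?_
    rw [le_div_iff₀ (by positivity)]
    refine le_trans (mul_le_mul_of_nonneg_left ?_ (sum_nonneg fun x _ => hw0 x)) (h1.trans hws)
    push_cast
    exact pow_le_pow_right₀ hD1 hL1
  · positivity
  · exact bl_num2 hg (by exact_mod_cast hrho)
  · positivity
  · calc ((1 / 2 : ℝ)) ^ t ≤ 1 := pow_le_one₀ (by norm_num) (by norm_num)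
      _ ≤ _ := one_le_pow₀ (by norm_num)
  · exact bl_num1 hg

theorem scb (hCOR : T_COR) (hCL1 : T_CL1) (hCL2 : T_CL2) (hBLN : T_BLN) : T_SCB := by
  intro E g B t k p _ Q _ _ S w hE hB hp hQ hg hEB hw0 hws
  rcases Nat.eq_zero_or_pos k with hk0 | hk1
  · subst hk0
    refine ⟨∅, by simp, fun u hu0 huw hu1 => ?_⟩
    exfalso
    have h1 : ∑ x, u x ≤ ∑ x, w x := sum_le_sum fun x _ => huw x
    rw [hu1] at h1
    have h2 := h1.trans hws
    norm_num at h2
  set D : ℕ := 2 ^ (4 * g) with hD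
  have hBE : 1 ≤ (4 * E + 1) * B := Nat.mul_pos (by omega) hB
  have hD1 : 1 < D := Nat.one_lt_two_pow (by omega)
  set rho0 : ℕ := Nat.clog D k with hrho0
  have hr2 : k ≤ D ^ rho0 := Nat.le_pow_clog hD1 k
  have hr3 : D ^ rho0 ≤ D * k := by
    rcases Nat.lt_or_ge 1 k with h1 | h1
    · have h2 := Nat.pow_pred_clog_lt_self hD1 h1
      rw [← hrho0] at h2
      have h3 : 0 < rho0 := Nat.clog_pos hD1 h1
      obtain ⟨l, hl⟩ : ∃ l, rho0 = l + 1 := ⟨rho0 - 1, by omega⟩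
      rw [hl, Nat.pred_succ] at h2
      rw [hl, pow_succ, mul_comm]
      exact Nat.mul_le_mul_left _ h2.le
    · have h2 : k = 1 := by omega
      rw [hrho0, h2, Nat.clog_one_right, pow_zero, mul_one]
      exact hD1.le
  set kap : ℕ := 2 * (B + rho0) + E * (8 * (B / E)) with hkap
  obtain ⟨Li, hLi1, hLi2⟩ := num_finset (fun x : Fin B → Q => ∑ j, lev w D E x j < kap)
  have hlight := light_card hCL2 w hD1.le hQ hw0 hEB kap
  set Hv : Finset (Fin B → Fin (E + 1)) :=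
    univ.filter (fun a => kap ≤ ∑ j, (a j : ℕ)) with hHv
  have hLi3 : ∀ x, x ∈ Li ↔ aof w D E x ∉ Hv := by
    intro x
    rw [hLi1, hHv, mem_filter, not_and_or, not_le]
    have : ∑ j, ((aof w D E x j : Fin (E + 1)) : ℕ) = ∑ j, lev w D E x j := rfl
    rw [this]
    simp
  refine ⟨Li, ?_, fun u hu0 huw hu1 => ?_⟩
  · rw [hLi2]
    refine hlight.trans ?_
    have hDr : ((D : ℝ)) = 2 ^ (4 * g) := by rw [hD]; push_cast; rfl
    rw [← hDr]
    have hk2 : 1 + kap + B ≤ (11 * B + 1) + (rho0 + rho0) := by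
      have : E * (8 * (B / E)) ≤ 8 * B := by
        have := Nat.mul_div_le B E
        nlinarith
      omega
    have hD1' : (1 : ℝ) ≤ D := by exact_mod_cast hD1.le
    have hr3' : (D : ℝ) ^ rho0 ≤ D * k := by exact_mod_cast hr3
    calc (D : ℝ) ^ (1 + kap + B) ≤ (D : ℝ) ^ ((11 * B + 1) + (rho0 + rho0)) :=
          pow_le_pow_right₀ hD1' hk2
      _ = (D : ℝ) ^ (11 * B + 1) * ((D : ℝ) ^ rho0 * (D : ℝ) ^ rho0) := by
          rw [pow_add, pow_add _ rho0]
      _ ≤ (D : ℝ) ^ (11 * B + 1) * ((D * k) * (D * k)) := by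
          refine mul_le_mul_of_nonneg_left ?_ (by positivity)
          exact mul_le_mul hr3' hr3' (by positivity) (by positivity)
      _ = _ := by ring
  · have hbad : ∀ al : Fin B → Q → ZMod p,
        (¬ 0 ≤ ∑ x, (PD S al x + ((E : ℝ) + 1) ^ B * (1 / 2) ^ t +
          2 ^ ((4 * E + 1) * B) * ind Li x) * u x) →
        ∃ a ∈ Hv, ¬ (((1 / 2 : ℝ) ^ t) • (1 : Matrix (Fin 1) (Fin 1) ℝ) +
          MM S (fun x => if aof w D E x = a then u x • (1 : Matrix (Fin 1) (Fin 1) ℝ) else 0)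
            al).PosSemidef := by
      intro al hal
      by_contra hcon
      push Not at hcon
      apply hal
      have h1 := bl_psd S (fun x => u x • (1 : Matrix (Fin 1) (Fin 1) ℝ))
        (fun x => Matrix.PosSemidef.one.smul (hu0 x)) (by rw [← sum_smul, hu1, one_smul])
        (aof w D E) Hv Li hLi3 al ((1 / 2) ^ t)
        (2 ^ ((4 * E + 1) * B)) (by positivity) (fun x => by
          refine (bl_PD_abs S al x).trans ?_
          rw [pow_mul]
          refine pow_le_pow_left₀ (Nat.cast_nonneg _) ?_ B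
          exact_mod_cast hp) hcon
      have h2 := h1.diag_nonneg (i := (0 : Fin 1))
      rw [Matrix.sum_apply] at h2
      simp only [Matrix.smul_apply, Matrix.one_apply_eq, smul_eq_mul, mul_one] at h2
      exact h2
    refine (num_le_sum Hv _ _ hbad).trans ?_
    set T : ℝ := (1 / 2) ^ 2 ^ (2 * g) * Fintype.card (Fin B → Q → ZMod p) with hT
    have hT0 : 0 ≤ T := by positivity
    have hc0 : (0 : ℝ) < ((E : ℝ) + 1) ^ B := by positivity
    have h1 : ∀ a ∈ Hv, num (fun al : Fin B → Q → ZMod p =>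
        ¬ (((1 / 2 : ℝ) ^ t) • (1 : Matrix (Fin 1) (Fin 1) ℝ) +
          MM S (fun x => if aof w D E x = a then u x • (1 : Matrix (Fin 1) (Fin 1) ℝ) else 0)
            al).PosSemidef) ≤
        T / ((E : ℝ) + 1) ^ B := by
      intro a ha
      rw [le_div_iff₀ hc0, mul_comm]
      refine scb_heavy hCOR hCL1 hBLN S w u hE hB hp hg hEB hw0 hws hu0 huw hu1
        (fun j => (a j : ℕ))
        (fun j => Nat.lt_succ_iff.mp (a j).2) rho0 hr2 (mem_filter.mp ha).2 _ ?_ ?_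
      · intro x hx
        rw [if_pos]
        exact funext fun j => Fin.ext (hx j)
      · intro x hx
        rw [if_neg]
        intro h
        apply hx
        intro j
        rw [← h]
        rfl
    refine (sum_le_card_nsmul _ _ _ h1).trans ?_
    rw [nsmul_eq_mul]
    have hcard : (Hv.card : ℝ) ≤ ((E : ℝ) + 1) ^ B := by
      have h4 : Hv.card ≤ (E + 1) ^ B := by
        refine (card_le_univ _).trans ?_
        rw [Fintype.card_fun, Fintype.card_fin, Fintype.card_fin]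
      exact_mod_cast h4
    calc (Hv.card : ℝ) * (T / ((E : ℝ) + 1) ^ B) ≤
          ((E : ℝ) + 1) ^ B * (T / ((E : ℝ) + 1) ^ B) :=
          mul_le_mul_of_nonneg_right hcard (by positivity)
      _ = T := by field_simp

end Pool.Agent.H92.SD
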